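import Mathlib
import Pool.Agent.H14.TropDefs

set_option autoImplicit false

namespace Pool.Agent.Results.MP_b8ee47_co.AllFactor

open Pool.Agent.H14.TropDefs Finset

def RF (n : ℕ) : AddSubgroup ((Fin n → ℝ) → ℝ) where
  carrier := {f | RatFact f}
  zero_mem' := ⟨[], [], by simp, by simp, by simp⟩
  add_mem' := by
    rintro f f' ⟨g, h, a, b, e⟩ ⟨g', h', a', b', e'⟩
    refine ⟨g ++ g', h ++ h', ?_, ?_, ?_⟩
    · intro u hu; rcases List.mem_append.1 hu with hu | hu; exacts [a u hu, a' u hu]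
    · intro u hu; rcases List.mem_append.1 hu with hu | hu; exacts [b u hu, b' u hu]
    · rw [List.sum_append, List.sum_append, ← e, ← e']; abel
  neg_mem' := by
    rintro f ⟨g, h, a, b, e⟩
    exact ⟨h, g, b, a, by rw [← e]; abel⟩

theorem dich {n : ℕ} (A : Finset (Fin n → ℕ)) (c : (Fin n → ℕ) → ℝ) :
    (∃ (t : Fin n → ℝ) (s : ℝ), ∀ a ∈ A, t ⬝ᵥ ex a + s = -c a) ∨
      ∃ w : (Fin n → ℕ) → ℝ, ∑ a ∈ A, w a = 0 ∧ (∀ x, ∑ a ∈ A, w a * (ex a ⬝ᵥ x) = 0) ∧
        ∑ a ∈ A, w a * c a < 0 := by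
  classical
  let T : ((Fin n → ℝ) × ℝ) →ₗ[ℝ] (A → ℝ) :=
    { toFun := fun p a => p.1 ⬝ᵥ ex a.1 + p.2
      map_add' := fun p q => by funext a; simp [add_dotProduct]; ring
      map_smul' := fun r p => by funext a; simp [smul_dotProduct]; ring }
  by_cases h : (fun a : A => -c a.1) ∈ LinearMap.range T
  · obtain ⟨p, hp⟩ := h
    exact Or.inl ⟨p.1, p.2, fun a ha => congrFun hp ⟨a, ha⟩⟩
  · right
    obtain ⟨φ, h1, h2⟩ := Submodule.exists_le_ker_of_notMem h
    let u : (Fin n → ℕ) → ℝ := fun a => if ha : a ∈ A then φ (Pi.single ⟨a, ha⟩ 1) else 0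
    have key : ∀ y : (Fin n → ℕ) → ℝ, φ (fun a : A => y a.1) = ∑ a ∈ A, u a * y a := by
      intro y
      rw [LinearMap.pi_apply_eq_sum_univ, ← Finset.sum_coe_sort A]
      refine sum_congr rfl fun a _ => ?_
      simp only [u, dif_pos a.2, smul_eq_mul, mul_comm]
      congr 2
      funext j
      simp [Pi.single_apply, eq_comm]
    have z : ∀ p, φ (T p) = 0 := fun p => h2 ⟨p, rfl⟩
    have z1 : ∑ a ∈ A, u a = 0 := by
      have := z (0, 1)
      rw [show T (0, 1) = fun a : A => (fun _ => (1 : ℝ)) a.1 by funext a; simp [T],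
        key fun _ => 1] at this
      simpa using this
    have z2 : ∀ x, ∑ a ∈ A, u a * (ex a ⬝ᵥ x) = 0 := by
      intro x
      have := z (x, 0)
      rwa [show T (x, 0) = fun a : A => (fun a => ex a ⬝ᵥ x) a.1 by
        funext a; simp [T, dotProduct_comm], key fun a => ex a ⬝ᵥ x] at this
    rw [key fun a => -c a] at h1
    simp only [mul_neg, sum_neg_distrib, ne_eq, neg_eq_zero] at h1
    rcases lt_or_gt_of_ne h1 with h3 | h3
    · exact ⟨u, z1, z2, h3⟩
    · refine ⟨fun a => -u a, by simp [z1], fun x => by simp [z2 x], ?_⟩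
      simpa using h3

theorem main {n : ℕ} (c : (Fin n → ℕ) → ℝ) : ∀ (k : ℕ) (A : Finset (Fin n → ℕ)) (hA : A.Nonempty),
    A.card = k → tp A hA c ∈ RF n := by
  classical
  intro k
  induction k using Nat.strong_induction_on with
  | _ k ih =>
    intro A hA hk
    rcases dich A c with ⟨t, s, h⟩ | ⟨w, w1, w2, w3⟩
    · refine ⟨[], [tp A hA c], by simp, ?_, by simp⟩
      intro u hu
      rw [List.mem_singleton.1 hu]
      refine ⟨A, hA, c, rfl, t, s, fun a ha => (h a ha).le, ?_⟩
      congr 2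
      ext a
      exact ⟨fun h' => h'.1, fun h' => ⟨h', h a h'⟩⟩
    · let P := A.filter fun a => 0 < w a
      let R := A.filter fun a => ¬ 0 < w a
      have hP : P.Nonempty := by
        by_contra hP
        have h0 : ∀ a ∈ A, w a ≤ 0 := fun a ha => not_lt.1 fun h => hP ⟨a, mem_filter.2 ⟨ha, h⟩⟩
        have := (sum_eq_zero_iff_of_nonpos h0).1 w1
        rw [sum_eq_zero fun a ha => by rw [this a ha, zero_mul]] at w3
        exact lt_irrefl _ w3
      have cmp : ∀ x, ∃ p ∈ P, ∃ q ∈ R, c p + ex p ⬝ᵥ x ≤ c q + ex q ⬝ᵥ x := by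
        intro x
        obtain ⟨p, hp, hm⟩ := P.exists_min_image (fun a => c a + ex a ⬝ᵥ x) hP
        refine ⟨p, hp, ?_⟩
        by_contra hq
        push Not at hq
        have : 0 ≤ ∑ a ∈ A, w a * (c a + ex a ⬝ᵥ x - (c p + ex p ⬝ᵥ x)) := by
          refine sum_nonneg fun a ha => ?_
          by_cases h : 0 < w a
          · exact mul_nonneg h.le (sub_nonneg.2 (hm a (mem_filter.2 ⟨ha, h⟩)))
          · exact mul_nonneg_of_nonpos_of_nonpos (not_lt.1 h)
              (sub_nonpos.2 (hq a (mem_filter.2 ⟨ha, h⟩)).le)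
        simp only [mul_sub, mul_add (w _), sum_sub_distrib, sum_add_distrib, ← sum_mul, w1, w2 x] at this
        linarith
      have hR : R.Nonempty := by obtain ⟨_, _, q, hq, _⟩ := cmp 0; exact ⟨q, hq⟩
      have ne : ∀ S : Finset (Fin n → ℕ), (R ∪ S).Nonempty := fun S => hR.mono subset_union_left
      have alt : ∑ S ∈ P.powerset, ((-1 : ℤ) ^ S.card) • tp (R ∪ S) (ne S) c = 0 := by
        funext x
        obtain ⟨p, hp, q, hq, hpq⟩ := cmp x
        rw [Finset.sum_apply, ← insert_erase hp, sum_powerset_insert (notMem_erase _ _),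
          ← sum_add_distrib]
        refine sum_eq_zero fun S hS => ?_
        have hpS : p ∉ S := fun h => notMem_erase p P (mem_powerset.1 hS h)
        have e : tp (R ∪ insert p S) (ne _) c x = tp (R ∪ S) (ne S) c x := by
          refine le_antisymm (sup'_le _ _ fun a ha => ?_) (sup'_le _ _ fun a ha => ?_)
          · rcases mem_union.1 ha with ha | ha
            · exact le_sup' (fun a => c a + ex a ⬝ᵥ x) (mem_union_left _ ha)
            · rcases mem_insert.1 ha with rfl | ha
              · exact hpq.trans (le_sup' (fun a => c a + ex a ⬝ᵥ x) (mem_union_left _ hq))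
              · exact le_sup' (fun a => c a + ex a ⬝ᵥ x) (mem_union_right _ ha)
          · exact le_sup' (fun a => c a + ex a ⬝ᵥ x)
              (union_subset_union (Subset.refl _) (subset_insert _ _) ha)
        simp only [Pi.smul_apply, card_insert_of_notMem hpS, e, pow_succ]
        simp
      rw [← add_sum_erase _ _ (mem_powerset_self P)] at alt
      have hRP : R ∪ P = A := by rw [union_comm]; exact filter_union_filter_not_eq _ _
      have mem : ∑ S ∈ P.powerset.erase P, ((-1 : ℤ) ^ S.card) • tp (R ∪ S) (ne S) c ∈ RF n := by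
        refine sum_mem fun S hS => zsmul_mem (ih _ ?_ _ _ rfl) _
        obtain ⟨h1, h2⟩ := mem_erase.1 hS
        obtain ⟨p, hp, hpS⟩ := exists_of_ssubset (lt_of_le_of_ne (mem_powerset.1 h2) h1)
        rw [← hk, ← hRP]
        refine card_lt_card ⟨union_subset_union (Subset.refl _) (mem_powerset.1 h2), fun h => ?_⟩
        rcases mem_union.1 (h (mem_union_right _ hp)) with h | h
        · exact (mem_filter.1 h).2 (mem_filter.1 hp).2
        · exact hpS h
      have m2 : ((-1 : ℤ) ^ P.card) • tp (R ∪ P) (ne P) c ∈ RF n := by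
        rw [eq_neg_of_add_eq_zero_left alt]; exact neg_mem mem
      have m3 := zsmul_mem m2 ((-1 : ℤ) ^ P.card)
      rw [smul_smul, ← mul_pow] at m3
      have e : tp (R ∪ P) (ne P) c = tp A hA c := by congr 1
      simpa [e] using m3

theorem result (n : ℕ) (A : Finset (Fin n → ℕ)) (hA : A.Nonempty) (c : (Fin n → ℕ) → ℝ) :
    RatFact (tp A hA c) :=
  main c _ A hA rfl

end Pool.Agent.Results.MP_b8ee47_co.AllFactor
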